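import Mathlib

/-!
# A strongly connected two-player preference graph without 4-cycles (MP_69f1cd, Q1)

A strict game with `4 × 5` strategies whose preference graph is strongly connected but contains
no directed 4-cycle (found with a SAT solver).
-/

set_option autoImplicit false

namespace Pool.Agent.Results.MP_69f1cd_co.NoFourCycle

section Defs

variable {S₁ S₂ : Type*}

/-- The game with payoffs `u₁ u₂` is strict: no player has ties. -/
def Strict (u₁ u₂ : S₁ → S₂ → ℝ) : Prop :=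
  (∀ s s' t, s ≠ s' → u₁ s t ≠ u₁ s' t) ∧ (∀ s t t', t ≠ t' → u₂ s t ≠ u₂ s t')

/-- The arcs of the preference graph: `p → q` if `p` and `q` differ in the strategy of exactly one
player, and this player strictly prefers `q`. -/
def Arc (u₁ u₂ : S₁ → S₂ → ℝ) (p q : S₁ × S₂) : Prop :=
  (p.1 ≠ q.1 ∧ p.2 = q.2 ∧ u₁ p.1 p.2 < u₁ q.1 q.2) ∨
    (p.1 = q.1 ∧ p.2 ≠ q.2 ∧ u₂ p.1 p.2 < u₂ q.1 q.2)

/-- There is a directed path from every vertex to every vertex. -/
def StronglyConnected (u₁ u₂ : S₁ → S₂ → ℝ) : Prop :=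
  ∀ p q, Relation.ReflTransGen (Arc u₁ u₂) p q

/-- There is a directed cycle through four distinct vertices. -/
def HasFourCycle (u₁ u₂ : S₁ → S₂ → ℝ) : Prop :=
  ∃ a b c d : S₁ × S₂, a ≠ b ∧ a ≠ c ∧ a ≠ d ∧ b ≠ c ∧ b ≠ d ∧ c ≠ d ∧
    Arc u₁ u₂ a b ∧ Arc u₁ u₂ b c ∧ Arc u₁ u₂ c d ∧ Arc u₁ u₂ d a

end Defs

/-- payoffs of player 1 (rows: strategies of player 1) -/
def U₁ : Fin 4 → Fin 5 → ℕ :=
  ![![0, 1, 3, 2, 2], ![1, 2, 0, 3, 0], ![2, 3, 1, 0, 3], ![3, 0, 2, 1, 1]]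

/-- payoffs of player 2 -/
def U₂ : Fin 4 → Fin 5 → ℕ :=
  ![![1, 0, 2, 3, 4], ![0, 4, 1, 2, 3], ![4, 3, 0, 1, 2], ![3, 2, 4, 0, 1]]

/-- the arcs of the example, computably -/
def arc (p q : Fin 4 × Fin 5) : Bool :=
  (decide (p.1 ≠ q.1) && decide (p.2 = q.2) && decide (U₁ p.1 p.2 < U₁ q.1 q.2)) ||
    (decide (p.1 = q.1) && decide (p.2 ≠ q.2) && decide (U₂ p.1 p.2 < U₂ q.1 q.2))

theorem arc_iff (p q : Fin 4 × Fin 5) :
    Arc (fun s t => (U₁ s t : ℝ)) (fun s t => (U₂ s t : ℝ)) p q ↔ arc p q = true := by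
  simp only [Arc, arc, Nat.cast_lt, Bool.or_eq_true, Bool.and_eq_true, decide_eq_true_eq,
    and_assoc]

/-- a closed walk through all the vertices -/
def walk : List (Fin 4 × Fin 5) :=
  [(0, 0), (0, 4), (2, 4), (2, 1), (2, 0), (3, 0), (3, 2), (0, 2), (0, 3), (1, 3), (1, 1), (2, 1),
   (2, 0), (3, 0), (3, 2), (0, 2), (0, 3), (1, 3), (1, 4), (3, 4), (3, 1), (0, 1), (0, 0), (1, 0),
   (1, 2), (2, 2), (2, 3), (3, 3), (3, 1), (0, 1), (0, 0)]

theorem walk_arc : ∀ i < 30, arc (walk.getD i (0, 0)) (walk.getD (i + 1) (0, 0)) = true := by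
  decide +kernel

theorem walk_mem : ∀ p : Fin 4 × Fin 5, ∃ i ≤ 30, walk.getD i (0, 0) = p := by
  decide +kernel

theorem reach (i d : ℕ) (h : i + d ≤ 30) :
    Relation.ReflTransGen (Arc (fun s t => (U₁ s t : ℝ)) (fun s t => (U₂ s t : ℝ)))
      (walk.getD i (0, 0)) (walk.getD (i + d) (0, 0)) := by
  induction d with
  | zero => exact Relation.ReflTransGen.refl
  | succ d ih => exact (ih (by omega)).tail ((arc_iff _ _).2 (walk_arc (i + d) (by omega)))

theorem no_cycle : ∀ a b : Fin 4 × Fin 5, arc a b = true → ∀ c, arc b c = true →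
    ∀ d, arc c d = true → ¬ (arc d a = true) := by
  decide +kernel

theorem strict_aux : (∀ s s' t, s ≠ s' → U₁ s t ≠ U₁ s' t) ∧
    (∀ s t t', t ≠ t' → U₂ s t ≠ U₂ s t') := by
  decide +kernel

/-- **Q1 of MP_69f1cd is false** (also for strict games). There is a strict two-player game, with
`4` strategies for player 1 and `5` strategies for player 2, whose preference graph is strongly
connected and contains no directed 4-cycle. -/
theorem result : ∃ u₁ u₂ : Fin 4 → Fin 5 → ℝ,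
    Strict u₁ u₂ ∧ StronglyConnected u₁ u₂ ∧ ¬ HasFourCycle u₁ u₂ := by
  refine ⟨fun s t => (U₁ s t : ℝ), fun s t => (U₂ s t : ℝ), ⟨?_, ?_⟩, ?_, ?_⟩
  · intro s s' t h
    exact fun e => strict_aux.1 s s' t h (Nat.cast_injective (R := ℝ) e)
  · intro s t t' h
    exact fun e => strict_aux.2 s t t' h (Nat.cast_injective (R := ℝ) e)
  · intro p q
    obtain ⟨i, hi, rfl⟩ := walk_mem p
    obtain ⟨j, hj, rfl⟩ := walk_mem q
    have h1 := reach i (30 - i) (by omega)
    have h2 := reach 0 j (by omega)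
    rw [show i + (30 - i) = 30 by omega] at h1
    rw [Nat.zero_add] at h2
    exact h1.trans h2
  · rintro ⟨a, b, c, d, -, -, -, -, -, -, h1, h2, h3, h4⟩
    rw [arc_iff] at h1 h2 h3 h4
    exact no_cycle a b h1 c h2 d h3 h4

end Pool.Agent.Results.MP_69f1cd_co.NoFourCycle
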